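import Mathlib

namespace Pool.Agent.Results.MP_ba45ff_co.NuclearBlock

universe u

variable {V : Type u}

/-- `D` is a dominating set of `G`: every vertex outside `D` has a neighbour in `D`. -/
def IsDominating (G : SimpleGraph V) (D : Set V) : Prop :=
  ∀ v : V, v ∉ D → ∃ u ∈ D, G.Adj u v

/-- The domination number `γ(G)`: the minimum size of a dominating set. -/
noncomputable def domNum (G : SimpleGraph V) : ℕ :=
  sInf {k : ℕ | ∃ D : Set V, IsDominating G D ∧ D.ncard = k}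

/-- `G` is `k`-edge-critical: `γ(G) = k` and `γ(G + e) = k - 1` for every missing edge `e`. -/
def IsKEdgeCritical (k : ℕ) (G : SimpleGraph V) : Prop :=
  domNum G = k ∧ ∀ u v : V, u ≠ v → ¬ G.Adj u v → domNum (G ⊔ SimpleGraph.edge u v) = k - 1

/-- `G` is edge-critical: it is `k`-edge-critical for some `k`. -/
def IsEdgeCritical (G : SimpleGraph V) : Prop := ∃ k : ℕ, IsKEdgeCritical k G

/-- The nucleus `G*`: the set of vertices `v` with `γ(G - v) = γ(G)`. -/
def nucleus (G : SimpleGraph V) : Set V := {v : V | domNum (G.induce {v}ᶜ) = domNum G}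

/-- `v` is a cutvertex of the (connected) graph `G`: the graph `G - v` is disconnected. -/
def IsCutVertex (G : SimpleGraph V) (v : V) : Prop := ¬ (G.induce {v}ᶜ).Preconnected

/-- `B` is the vertex set of a block of `G`: `B` is maximal among the vertex sets `C` such that
`G[C]` is connected and has no cutvertex of its own, that is, `G[C - v]` is connected or empty
for every `v` in `C`. -/
def IsBlock (G : SimpleGraph V) (B : Set V) : Prop :=
  Maximal (fun C : Set V => (G.induce C).Connected ∧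
    ∀ v ∈ C, (G.induce (C \ {v})).Preconnected) B

/-! ### Basic facts on domination -/

theorem domNum_le {G : SimpleGraph V} {D : Set V} (h : IsDominating G D) :
    domNum G ≤ D.ncard := Nat.sInf_le ⟨D, h, rfl⟩

theorem exists_domNum (G : SimpleGraph V) : ∃ D : Set V, IsDominating G D ∧ D.ncard = domNum G :=
  Nat.sInf_mem (s := {k : ℕ | ∃ D : Set V, IsDominating G D ∧ D.ncard = k})
    ⟨_, Set.univ, fun v hv => absurd (Set.mem_univ v) hv, rfl⟩

/-- `X` dominates every vertex except possibly `y`. -/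
def DomExc (G : SimpleGraph V) (X : Set V) (y : V) : Prop :=
  ∀ v : V, v ≠ y → v ∉ X → ∃ u ∈ X, G.Adj u v

/-- `y` is not critical. -/
def NC (G : SimpleGraph V) (y : V) : Prop :=
  ∀ X : Set V, y ∉ X → DomExc G X y → domNum G ≤ X.ncard

theorem domNum_pos [Finite V] (G : SimpleGraph V) (x : V) : 0 < domNum G := by
  obtain ⟨D, hD, hcard⟩ := exists_domNum G
  by_contra h0
  have h1 : D.ncard = 0 := by omega
  have h2 : D = ∅ := (Set.ncard_eq_zero (Set.toFinite D)).mp h1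
  subst h2
  obtain ⟨u, hu, _⟩ := hD x (by simp)
  simp at hu

theorem crit_pair [Finite V] {G : SimpleGraph V} (hc : IsEdgeCritical G) {x y : V} (hxy : x ≠ y)
    (hna : ¬ G.Adj x y) : ∃ X : Set V, X.ncard < domNum G ∧
      ((x ∈ X ∧ y ∉ X ∧ DomExc G X y) ∨ (y ∈ X ∧ x ∉ X ∧ DomExc G X x)) := by
  obtain ⟨k, hk, hc⟩ := hc
  have h1 := hc x y hxy hna
  obtain ⟨X, hX, hcard⟩ := exists_domNum (G ⊔ SimpleGraph.edge x y)
  have hpos := domNum_pos G x
  have hlt : X.ncard < domNum G := by omega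
  refine ⟨X, hlt, ?_⟩
  have hnd : ¬ IsDominating G X := fun h => by
    have := domNum_le h
    omega
  unfold IsDominating at hnd
  push Not at hnd
  obtain ⟨w, hwX, hw⟩ := hnd
  have hloc : ∀ v : V, v ∉ X → (∀ u ∈ X, ¬ G.Adj u v) → (v = x ∧ y ∈ X) ∨ (v = y ∧ x ∈ X) := by
    intro v hvX hv
    obtain ⟨u, hu, hadj⟩ := hX v hvX
    rcases hadj with hadj | hadj
    · exact absurd hadj (hv u hu)
    · rw [SimpleGraph.edge_adj] at hadj
      rcases hadj.1 with ⟨rfl, rfl⟩ | ⟨rfl, rfl⟩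
      · exact Or.inr ⟨rfl, hu⟩
      · exact Or.inl ⟨rfl, hu⟩
  rcases hloc w hwX hw with ⟨rfl, hyX⟩ | ⟨rfl, hxX⟩
  · refine Or.inr ⟨hyX, hwX, ?_⟩
    intro v hv hvX
    by_contra hcon
    push Not at hcon
    rcases hloc v hvX hcon with ⟨rfl, _⟩ | ⟨rfl, _⟩
    · exact hv rfl
    · exact hvX hyX
  · refine Or.inl ⟨hxX, hwX, ?_⟩
    intro v hv hvX
    by_contra hcon
    push Not at hcon
    rcases hloc v hvX hcon with ⟨rfl, _⟩ | ⟨rfl, _⟩
    · exact hvX hxX
    · exact hv rfl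

/-- No dominating set with fewer than `γ(G)` vertices. -/
theorem not_dom_of_lt {G : SimpleGraph V} {X : Set V} (hlt : X.ncard < domNum G) :
    ¬ IsDominating G X := fun h => by
  have := domNum_le h
  omega

/-- If `X` dominates everything but `y` and `|X| < γ(G)`, no neighbour of `y` is in `X`. -/
theorem notMem_of_adj {G : SimpleGraph V} {X : Set V} {y z : V} (hlt : X.ncard < domNum G)
    (hX : DomExc G X y) (hadj : G.Adj z y) : z ∉ X := by
  intro hz
  apply not_dom_of_lt hlt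
  intro v hv
  by_cases hvy : v = y
  · subst hvy
    exact ⟨z, hz, hadj⟩
  · exact hX v hvy hv

theorem notMem_self {G : SimpleGraph V} {X : Set V} {y : V} (hlt : X.ncard < domNum G)
    (hX : DomExc G X y) : y ∉ X := by
  intro hy
  apply not_dom_of_lt hlt
  intro v hv
  exact hX v (fun h => hv (h ▸ hy)) hv

/-- Non-critical vertices are pairwise adjacent. -/
theorem NC_adj [Finite V] {G : SimpleGraph V} (hc : IsEdgeCritical G) {x y : V} (hx : NC G x)
    (hy : NC G y) (hxy : x ≠ y) : G.Adj x y := by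
  by_contra hna
  obtain ⟨X, hlt, h | h⟩ := crit_pair hc hxy hna
  · have := hy X h.2.1 h.2.2
    omega
  · have := hx X h.2.1 h.2.2
    omega

/-- In an edge-critical graph deleting a vertex never raises the domination number. -/
theorem exists_domExc [Finite V] {G : SimpleGraph V} (hc : IsEdgeCritical G) (y : V) :
    ∃ X : Set V, y ∉ X ∧ DomExc G X y ∧ X.ncard ≤ domNum G := by
  obtain ⟨D, hD, hcard⟩ := exists_domNum G
  by_cases hyD : y ∈ D
  swap
  · exact ⟨D, hyD, fun v _ hv => hD v hv, hcard.le⟩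
  by_cases hP : ∀ p : V, p ≠ y → p ∉ D → ∃ u ∈ D, u ≠ y ∧ G.Adj u p
  · refine ⟨D \ {y}, by simp, ?_, ?_⟩
    · intro v hv hvD
      have hvD' : v ∉ D := fun h => hvD ⟨h, hv⟩
      obtain ⟨u, hu, huy, hadj⟩ := hP v hv hvD'
      exact ⟨u, ⟨hu, huy⟩, hadj⟩
    · have := Set.ncard_le_ncard (Set.sdiff_subset : D \ {y} ⊆ D) (Set.toFinite D)
      omega
  · push Not at hP
    obtain ⟨p, hpy, hpD, hp⟩ := hP
    have hyp : G.Adj y p := by
      obtain ⟨u, hu, hadj⟩ := hD p hpD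
      by_cases huy : u = y
      · exact huy ▸ hadj
      · exact absurd hadj (hp u hu huy)
    by_cases hQ : ∀ q : V, q ≠ y → q ∉ D → (∀ u ∈ D, u ≠ y → ¬ G.Adj u q) → q ≠ p → G.Adj p q
    · refine ⟨insert p (D \ {y}), ?_, ?_, ?_⟩
      · simp [Ne.symm hpy]
      · intro v hv hvX
        simp only [Set.mem_insert_iff, Set.mem_sdiff, Set.mem_singleton_iff, not_or, not_and,
          not_not] at hvX
        have hvD : v ∉ D := fun h => hv (hvX.2 h)
        by_cases hvq : ∀ u ∈ D, u ≠ y → ¬ G.Adj u v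
        · exact ⟨p, by simp, hQ v hv hvD hvq hvX.1⟩
        · push Not at hvq
          obtain ⟨u, hu, huy, hadj⟩ := hvq
          exact ⟨u, by simp [hu, huy], hadj⟩
      · have h1 := Set.ncard_insert_le p (D \ {y})
        have h2 := Set.ncard_sdiff_singleton_add_one hyD (Set.toFinite D)
        omega
    · push Not at hQ
      obtain ⟨q, hqy, hqD, hq, hqp, hnpq⟩ := hQ
      have hyq : G.Adj y q := by
        obtain ⟨u, hu, hadj⟩ := hD q hqD
        by_cases huy : u = y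
        · exact huy ▸ hadj
        · exact absurd hadj (hq u hu huy)
      obtain ⟨X, hlt, h | h⟩ := crit_pair hc (Ne.symm hqp) hnpq
      · have hyX : y ∉ X := notMem_of_adj hlt h.2.2 hyq
        refine ⟨insert q X, by simp [hyX, Ne.symm hqy], ?_, ?_⟩
        · intro v _ hvX
          simp only [Set.mem_insert_iff, not_or] at hvX
          obtain ⟨u, hu, hadj⟩ := h.2.2 v hvX.1 hvX.2
          exact ⟨u, by simp [hu], hadj⟩
        · have := Set.ncard_insert_le q X
          omega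
      · have hyX : y ∉ X := notMem_of_adj hlt h.2.2 hyp
        refine ⟨insert p X, by simp [hyX, Ne.symm hpy], ?_, ?_⟩
        · intro v _ hvX
          simp only [Set.mem_insert_iff, not_or] at hvX
          obtain ⟨u, hu, hadj⟩ := h.2.2 v hvX.1 hvX.2
          exact ⟨u, by simp [hu], hadj⟩
        · have := Set.ncard_insert_le p X
          omega

/-- In an edge-critical graph the nucleus is the set of non-critical vertices. -/
theorem mem_nucleus_iff [Finite V] {G : SimpleGraph V} (hc : IsEdgeCritical G) (y : V) :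
    y ∈ nucleus G ↔ NC G y := by
  have hle : ∀ X : Set V, y ∉ X → DomExc G X y → domNum (G.induce {y}ᶜ) ≤ X.ncard := by
    intro X hyX hX
    have h1 : IsDominating (G.induce {y}ᶜ) (Subtype.val ⁻¹' X) := by
      rintro ⟨v, hv⟩ hvX
      obtain ⟨u, hu, hadj⟩ := hX v hv hvX
      exact ⟨⟨u, fun h => hyX (h ▸ hu)⟩, hu, hadj⟩
    refine (domNum_le h1).trans ?_
    rw [Set.ncard_preimage_of_injective_subset_range Subtype.val_injective]
    intro u hu
    exact ⟨⟨u, fun h => hyX (h ▸ hu)⟩, rfl⟩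
  obtain ⟨D, hD, hDcard⟩ := exists_domNum (G.induce ({y}ᶜ : Set V))
  have hD1 : y ∉ Subtype.val '' D := by
    rintro ⟨⟨u, hu⟩, _, huy⟩
    exact hu huy
  have hD2 : DomExc G (Subtype.val '' D) y := by
    intro v hv hvD
    obtain ⟨⟨u, hu'⟩, hu, hadj⟩ := hD ⟨v, hv⟩ (fun h => hvD ⟨_, h, rfl⟩)
    exact ⟨u, ⟨_, hu, rfl⟩, hadj⟩
  have hD3 : (Subtype.val '' D).ncard = D.ncard :=
    Set.ncard_image_of_injective _ Subtype.val_injective
  constructor
  · intro hy X hyX hX
    have h1 : domNum (G.induce {y}ᶜ) = domNum G := hy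
    have h2 := hle X hyX hX
    omega
  · intro hy
    have h1 := hy _ hD1 hD2
    obtain ⟨X, hyX, hX, hXc⟩ := exists_domExc hc y
    have h2 := hle X hyX hX
    show domNum (G.induce {y}ᶜ) = domNum G
    omega

/-! ### Cutvertices -/

/-- The two sides of a cutvertex `v`. -/
structure Sep (G : SimpleGraph V) (v : V) (C₁ C₂ : Set V) : Prop where
  notMem₁ : v ∉ C₁
  notMem₂ : v ∉ C₂
  disj : ∀ z ∈ C₁, z ∉ C₂
  cover : ∀ z : V, z ≠ v → z ∈ C₁ ∨ z ∈ C₂
  noadj : ∀ a ∈ C₁, ∀ b ∈ C₂, ¬ G.Adj a b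
  nbr₁ : ∃ x ∈ C₁, G.Adj v x
  nbr₂ : ∃ y ∈ C₂, G.Adj v y

theorem Sep.symm {G : SimpleGraph V} {v : V} {C₁ C₂ : Set V} (h : Sep G v C₁ C₂) :
    Sep G v C₂ C₁ where
  notMem₁ := h.notMem₂
  notMem₂ := h.notMem₁
  disj := fun z hz hz' => h.disj z hz' hz
  cover := fun z hz => (h.cover z hz).symm
  noadj := fun a ha b hb hab => h.noadj b hb a ha hab.symm
  nbr₁ := h.nbr₂
  nbr₂ := h.nbr₁

/-- `C` is a light side at `v`: the vertex `v` can be taken into a dominating set for free. -/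
def Light (G : SimpleGraph V) (v : V) (C : Set V) : Prop :=
  ∃ Q : Set V, Q ⊆ C ∧ (∀ z ∈ C, z ∉ Q → G.Adj v z ∨ ∃ u ∈ Q, G.Adj u z) ∧
    ∀ P : Set V, P ⊆ C → (∀ z ∈ C, z ∉ P → ∃ u ∈ P, G.Adj u z) → Q.ncard + 1 ≤ P.ncard

theorem Sep.ncard_eq [Finite V] {G : SimpleGraph V} {v : V} {C₁ C₂ : Set V} (h : Sep G v C₁ C₂)
    {X : Set V} (hvX : v ∉ X) : X.ncard = (X ∩ C₁).ncard + (X ∩ C₂).ncard := by
  rw [← Set.ncard_union_eq]
  · congr 1
    ext z
    constructor
    · intro hz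
      rcases h.cover z (fun hzv => hvX (hzv ▸ hz)) with h1 | h1
      · exact Or.inl ⟨hz, h1⟩
      · exact Or.inr ⟨hz, h1⟩
    · rintro (hz | hz) <;> exact hz.1
  · rw [Set.disjoint_left]
    intro z hz hz'
    exact h.disj z hz.2 hz'.2

/-- A vertex of `C₂` dominated by `X`, where `v ∉ X`, is dominated by `X ∩ C₂`. -/
theorem Sep.dom₂ {G : SimpleGraph V} {v : V} {C₁ C₂ : Set V} (h : Sep G v C₁ C₂)
    {X : Set V} (hvX : v ∉ X) {z : V} (hz : z ∈ C₂) (hdom : ∃ u ∈ X, G.Adj u z) :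
    ∃ u ∈ X ∩ C₂, G.Adj u z := by
  obtain ⟨u, hu, hadj⟩ := hdom
  rcases h.cover u (fun huv => hvX (huv ▸ hu)) with h1 | h1
  · exact absurd hadj (h.noadj u h1 z hz)
  · exact ⟨u, ⟨hu, h1⟩, hadj⟩

theorem Sep.light_of [Finite V] {G : SimpleGraph V} {v : V} {C₁ C₂ : Set V} (h : Sep G v C₁ C₂)
    {x y : V} (hx : x ∈ C₁) (hvx : G.Adj v x) (hy : y ∈ C₂) (hvy : G.Adj v y)
    {X : Set V} (hlt : X.ncard < domNum G) (hyX : y ∈ X) (hX : DomExc G X x) :
    Light G v C₁ := by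
  have hvX : v ∉ X := notMem_of_adj hlt hX hvx
  have hxX : x ∉ X := notMem_self hlt hX
  refine ⟨X ∩ C₁, Set.inter_subset_right, ?_, ?_⟩
  · intro z hz hzX
    by_cases hzx : z = x
    · exact Or.inl (hzx ▸ hvx)
    · right
      exact h.symm.dom₂ hvX hz (hX z hzx (fun h' => hzX ⟨h', hz⟩))
  · intro P hP hdom
    have hD : IsDominating G (P ∪ (X ∩ C₂)) := by
      intro z hz
      simp only [Set.mem_union, not_or] at hz
      by_cases hzv : z = v
      · exact ⟨y, Or.inr ⟨hyX, hy⟩, hzv ▸ hvy.symm⟩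
      · rcases h.cover z hzv with h1 | h1
        · obtain ⟨u, hu, hadj⟩ := hdom z h1 hz.1
          exact ⟨u, Or.inl hu, hadj⟩
        · obtain ⟨u, hu, hadj⟩ := h.dom₂ hvX h1
            (hX z (fun h' => h.disj x hx (h' ▸ h1)) (fun h' => hz.2 ⟨h', h1⟩))
          exact ⟨u, Or.inr hu, hadj⟩
    have h1 := domNum_le hD
    have h2 := Set.ncard_union_le P (X ∩ C₂)
    have h3 := h.ncard_eq hvX
    omega

theorem Sep.light_or [Finite V] {G : SimpleGraph V} (hc : IsEdgeCritical G) {v : V}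
    {C₁ C₂ : Set V} (h : Sep G v C₁ C₂) : Light G v C₁ ∨ Light G v C₂ := by
  obtain ⟨x, hx, hvx⟩ := h.nbr₁
  obtain ⟨y, hy, hvy⟩ := h.nbr₂
  have hxy : x ≠ y := fun h' => h.disj x hx (h' ▸ hy)
  obtain ⟨X, hlt, h1 | h1⟩ := crit_pair hc hxy (h.noadj x hx y hy)
  · exact Or.inr (h.symm.light_of hy hvy hx hvx hlt h1.1 h1.2.2)
  · exact Or.inl (h.light_of hx hvx hy hvy hlt h1.1 h1.2.2)

/-- Auxiliary step for `not_both`. -/
theorem Sep.not_both_aux [Finite V] {G : SimpleGraph V} {v : V} {C₁ C₂ : Set V}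
    (h : Sep G v C₁ C₂) (h₁ : Light G v C₁) (h₂ : Light G v C₂)
    {x : V} (hx : x ∈ C₁) (hvx : G.Adj v x)
    {X : Set V} (hlt : X.ncard < domNum G) (hX : DomExc G X x) : False := by
  have hvX : v ∉ X := notMem_of_adj hlt hX hvx
  obtain ⟨Q₁, hQ₁, hd₁, hm₁⟩ := h₁
  obtain ⟨Q₂, hQ₂, hd₂, hm₂⟩ := h₂
  have hD : IsDominating G (insert v (Q₁ ∪ Q₂)) := by
    intro z hz
    simp only [Set.mem_insert_iff, Set.mem_union, not_or] at hz
    rcases h.cover z hz.1 with h1 | h1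
    · rcases hd₁ z h1 hz.2.1 with h2 | ⟨u, hu, hadj⟩
      · exact ⟨v, by simp, h2⟩
      · exact ⟨u, by simp [hu], hadj⟩
    · rcases hd₂ z h1 hz.2.2 with h2 | ⟨u, hu, hadj⟩
      · exact ⟨v, by simp, h2⟩
      · exact ⟨u, by simp [hu], hadj⟩
  have e1 := domNum_le hD
  have e2 := Set.ncard_insert_le v (Q₁ ∪ Q₂)
  have e3 := Set.ncard_union_le Q₁ Q₂
  have e4 := h.ncard_eq hvX
  have e5 : Q₂.ncard + 1 ≤ (X ∩ C₂).ncard := by
    apply hm₂ _ Set.inter_subset_right
    intro z hz hzX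
    exact h.dom₂ hvX hz (hX z (fun h' => h.disj x hx (h' ▸ hz)) (fun h' => hzX ⟨h', hz⟩))
  have e6 : Q₁.ncard + 1 ≤ (insert x (X ∩ C₁)).ncard := by
    apply hm₁ _ (Set.insert_subset hx Set.inter_subset_right)
    intro z hz hzX
    simp only [Set.mem_insert_iff, Set.mem_inter_iff, not_or, not_and] at hzX
    obtain ⟨u, hu, hadj⟩ := h.symm.dom₂ hvX hz (hX z hzX.1 (fun h' => hzX.2 h' hz))
    exact ⟨u, Or.inr hu, hadj⟩
  have e7 := Set.ncard_insert_le x (X ∩ C₁)
  omega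

theorem Sep.not_both [Finite V] {G : SimpleGraph V} (hc : IsEdgeCritical G) {v : V}
    {C₁ C₂ : Set V} (h : Sep G v C₁ C₂) (h₁ : Light G v C₁) (h₂ : Light G v C₂) : False := by
  obtain ⟨x, hx, hvx⟩ := h.nbr₁
  obtain ⟨y, hy, hvy⟩ := h.nbr₂
  have hxy : x ≠ y := fun h' => h.disj x hx (h' ▸ hy)
  obtain ⟨X, hlt, h1 | h1⟩ := crit_pair hc hxy (h.noadj x hx y hy)
  · exact h.symm.not_both_aux h₂ h₁ hy hvy hlt h1.2.2
  · exact h.not_both_aux h₁ h₂ hx hvx hlt h1.2.2

/-- The cutvertex itself is not critical. -/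
theorem Sep.NC_self [Finite V] {G : SimpleGraph V} {v : V}
    {C₁ C₂ : Set V} (h : Sep G v C₁ C₂) (h₁ : Light G v C₁) : NC G v := by
  intro Z hvZ hZ
  by_contra hlt
  push Not at hlt
  obtain ⟨Q, hQ, hd, hm⟩ := h₁
  have hne : ∀ z, z ∈ C₁ → z ≠ v := fun z hz h' => h.notMem₁ (h' ▸ hz)
  have hne' : ∀ z, z ∈ C₂ → z ≠ v := fun z hz h' => h.notMem₂ (h' ▸ hz)
  have e1 : Q.ncard + 1 ≤ (Z ∩ C₁).ncard := by
    apply hm _ Set.inter_subset_right
    intro z hz hzZ
    exact h.symm.dom₂ hvZ hz (hZ z (hne z hz) (fun h' => hzZ ⟨h', hz⟩))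
  have hD : IsDominating G (insert v (Q ∪ (Z ∩ C₂))) := by
    intro z hz
    simp only [Set.mem_insert_iff, Set.mem_union, not_or] at hz
    rcases h.cover z hz.1 with h1 | h1
    · rcases hd z h1 hz.2.1 with h2 | ⟨u, hu, hadj⟩
      · exact ⟨v, by simp, h2⟩
      · exact ⟨u, by simp [hu], hadj⟩
    · obtain ⟨u, hu, hadj⟩ := h.dom₂ hvZ h1 (hZ z (hne' z h1) (fun h' => hz.2.2 ⟨h', h1⟩))
      exact ⟨u, Or.inr (Or.inr hu), hadj⟩
  have e2 := domNum_le hD
  have e3 := Set.ncard_insert_le v (Q ∪ (Z ∩ C₂))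
  have e4 := Set.ncard_union_le Q (Z ∩ C₂)
  have e5 := h.ncard_eq hvZ
  omega

/-- The neighbours of a cutvertex on its heavy side are not critical. -/
theorem Sep.NC_nbr [Finite V] {G : SimpleGraph V} (hc : IsEdgeCritical G) {v : V}
    {C₁ C₂ : Set V} (h : Sep G v C₁ C₂) (h₁ : Light G v C₁) {y : V} (hy : y ∈ C₂)
    (hvy : G.Adj v y) : NC G y := by
  intro Z hyZ hZ
  by_contra hlt
  push Not at hlt
  have hvZ : v ∉ Z := notMem_of_adj hlt hZ hvy
  have hvNC := h.NC_self h₁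
  have hne : ∀ z, z ∈ C₁ → z ≠ y := fun z hz h' => h.disj z hz (h' ▸ hy)
  apply h.not_both hc h₁
  refine ⟨Z ∩ C₂, Set.inter_subset_right, ?_, ?_⟩
  · intro z hz hzZ
    by_cases hzy : z = y
    · exact Or.inl (hzy ▸ hvy)
    · right
      exact h.dom₂ hvZ hz (hZ z hzy (fun h' => hzZ ⟨h', hz⟩))
  · intro P hP hdom
    have hvP : v ∉ P := fun h' => h.notMem₂ (hP h')
    have e1 : domNum G ≤ (P ∪ (Z ∩ C₁)).ncard := by
      apply hvNC
      · simp only [Set.mem_union, not_or]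
        exact ⟨hvP, fun h' => hvZ h'.1⟩
      · intro z hzv hz
        simp only [Set.mem_union, not_or] at hz
        rcases h.cover z hzv with h1 | h1
        · obtain ⟨u, hu, hadj⟩ := h.symm.dom₂ hvZ h1 (hZ z (hne z h1) (fun h' => hz.2 ⟨h', h1⟩))
          exact ⟨u, Or.inr hu, hadj⟩
        · obtain ⟨u, hu, hadj⟩ := hdom z h1 hz.1
          exact ⟨u, Or.inl hu, hadj⟩
    have e2 := Set.ncard_union_le P (Z ∩ C₁)
    have e3 := h.ncard_eq hvZ
    omega

/-- The vertices of the light side are critical. -/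
theorem Sep.not_NC [Finite V] {G : SimpleGraph V} (hc : IsEdgeCritical G) {v : V}
    {C₁ C₂ : Set V} (h : Sep G v C₁ C₂) (h₁ : Light G v C₁) {x : V} (hx : x ∈ C₁) :
    ¬ NC G x := by
  intro hxNC
  obtain ⟨y, hy, hvy⟩ := h.nbr₂
  exact h.noadj x hx y hy (NC_adj hc hxNC (h.NC_nbr hc h₁ hy hvy)
    (fun h' => h.disj x hx (h' ▸ hy)))

/-- Exchange: a dominating set avoiding the cutvertex `v` can be changed inside the light side so
that it contains `v` and is not larger. -/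
theorem Sep.exchange [Finite V] {G : SimpleGraph V} {v : V}
    {C₁ C₂ : Set V} (h : Sep G v C₁ C₂) (h₁ : Light G v C₁) {X : Set V}
    (hX : IsDominating G X) (hvX : v ∉ X) :
    ∃ X' : Set V, IsDominating G X' ∧ X'.ncard ≤ X.ncard ∧ v ∈ X' ∧ X \ C₁ ⊆ X' := by
  obtain ⟨Q, hQ, hd, hm⟩ := h₁
  have e1 : Q.ncard + 1 ≤ (X ∩ C₁).ncard := by
    apply hm _ Set.inter_subset_right
    intro z hz hzX
    exact h.symm.dom₂ hvX hz (hX z (fun h' => hzX ⟨h', hz⟩))
  refine ⟨insert v (Q ∪ (X ∩ C₂)), ?_, ?_, by simp, ?_⟩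
  · intro z hz
    simp only [Set.mem_insert_iff, Set.mem_union, not_or] at hz
    rcases h.cover z hz.1 with h1 | h1
    · rcases hd z h1 hz.2.1 with h2 | ⟨u, hu, hadj⟩
      · exact ⟨v, by simp, h2⟩
      · exact ⟨u, by simp [hu], hadj⟩
    · obtain ⟨u, hu, hadj⟩ := h.dom₂ hvX h1 (hX z (fun h' => hz.2.2 ⟨h', h1⟩))
      exact ⟨u, Or.inr (Or.inr hu), hadj⟩
  · have e3 := Set.ncard_insert_le v (Q ∪ (X ∩ C₂))
    have e4 := Set.ncard_union_le Q (X ∩ C₂)
    have e5 := h.ncard_eq hvX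
    omega
  · intro z hz
    rcases h.cover z (fun h' => hvX (h' ▸ hz.1)) with h1 | h1
    · exact absurd h1 hz.2
    · exact Or.inr (Or.inr ⟨hz.1, h1⟩)

/-! ### Connectivity inside a set of vertices -/

/-- `x` and `y` are joined by a walk inside `A`. -/
def Conn (G : SimpleGraph V) (A : Set V) (x y : V) : Prop :=
  ∃ W : G.Walk x y, ∀ z ∈ W.support, z ∈ A

theorem Conn.symm {G : SimpleGraph V} {A : Set V} {x y : V} (h : Conn G A x y) :
    Conn G A y x := by
  obtain ⟨W, hW⟩ := h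
  exact ⟨W.reverse, fun z hz => hW z (by simpa using hz)⟩

theorem Conn.trans {G : SimpleGraph V} {A : Set V} {x y z : V} (h : Conn G A x y)
    (h' : Conn G A y z) : Conn G A x z := by
  obtain ⟨W, hW⟩ := h
  obtain ⟨W', hW'⟩ := h'
  refine ⟨W.append W', fun t ht => ?_⟩
  rw [SimpleGraph.Walk.mem_support_append_iff] at ht
  rcases ht with ht | ht
  · exact hW t ht
  · exact hW' t ht

theorem Conn.mono {G : SimpleGraph V} {A B : Set V} (hAB : A ⊆ B) {x y : V}
    (h : Conn G A x y) : Conn G B x y := by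
  obtain ⟨W, hW⟩ := h
  exact ⟨W, fun z hz => hAB (hW z hz)⟩

theorem Conn.of_adj {G : SimpleGraph V} {A : Set V} {x y : V} (hx : x ∈ A) (hy : y ∈ A)
    (h : G.Adj x y) : Conn G A x y := by
  refine ⟨.cons h .nil, fun z hz => ?_⟩
  simp at hz
  rcases hz with rfl | rfl <;> assumption

theorem conn_of_walk {G : SimpleGraph V} {A : Set V} :
    ∀ {a b : A} (_ : (G.induce A).Walk a b), Conn G A a b := by
  intro a b W
  induction W with
  | @nil a =>
    refine ⟨.nil, fun z hz => ?_⟩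
    simp at hz
    exact hz ▸ a.2
  | @cons a a' b h W ih => exact (Conn.of_adj a.2 a'.2 h).trans ih

theorem preconnected_iff_conn {G : SimpleGraph V} {A : Set V} :
    (G.induce A).Preconnected ↔ ∀ x ∈ A, ∀ y ∈ A, Conn G A x y := by
  constructor
  · intro h x hx y hy
    obtain ⟨W⟩ := h ⟨x, hx⟩ ⟨y, hy⟩
    exact conn_of_walk W
  · rintro h ⟨x, hx⟩ ⟨y, hy⟩
    obtain ⟨W, hW⟩ := h x hx y hy
    exact ⟨W.induce A hW⟩

/-- A walk from a vertex of `C` to `v`, where `C` is closed under taking neighbours other than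
`v`, gives a neighbour of `v` in `C`. -/
theorem exists_nbr {G : SimpleGraph V} {v : V} {C : Set V} (hvC : v ∉ C)
    (hC : ∀ a ∈ C, ∀ b : V, G.Adj a b → b ≠ v → b ∈ C) :
    ∀ {a b : V} (_ : G.Walk a b), b = v → a ∈ C → ∃ x ∈ C, G.Adj v x := by
  intro a b W
  induction W with
  | nil => intro hb ha; exact absurd (hb ▸ ha) hvC
  | @cons a a' b h W ih =>
    intro hb ha
    by_cases h' : a' = v
    · exact ⟨a, ha, h' ▸ h.symm⟩
    · exact ih hb (hC a ha a' h h')

theorem exists_sep {G : SimpleGraph V} (hconn : G.Connected) {v : V} (hv : IsCutVertex G v) :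
    ∃ C₁ C₂ : Set V, Sep G v C₁ C₂ := by
  unfold IsCutVertex at hv
  rw [preconnected_iff_conn] at hv
  push Not at hv
  obtain ⟨a, ha, b, hb, hab⟩ := hv
  have hcl₁ : ∀ x ∈ {z : V | z ≠ v ∧ Conn G {v}ᶜ a z}, ∀ y : V, G.Adj x y → y ≠ v →
      y ∈ {z : V | z ≠ v ∧ Conn G {v}ᶜ a z} := by
    intro x hx y hxy hy
    exact ⟨hy, hx.2.trans (Conn.of_adj hx.1 hy hxy)⟩
  have hcl₂ : ∀ x ∈ {z : V | z ≠ v ∧ ¬ Conn G {v}ᶜ a z}, ∀ y : V, G.Adj x y → y ≠ v →
      y ∈ {z : V | z ≠ v ∧ ¬ Conn G {v}ᶜ a z} := by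
    intro x hx y hxy hy
    exact ⟨hy, fun h => hx.2 (h.trans (Conn.of_adj hy hx.1 hxy.symm))⟩
  refine ⟨{z | z ≠ v ∧ Conn G {v}ᶜ a z}, {z | z ≠ v ∧ ¬ Conn G {v}ᶜ a z}, ?_⟩
  refine ⟨fun h => h.1 rfl, fun h => h.1 rfl, fun z h h' => h'.2 h.2, ?_, ?_, ?_, ?_⟩
  · intro z hz
    by_cases h : Conn G {v}ᶜ a z
    · exact Or.inl ⟨hz, h⟩
    · exact Or.inr ⟨hz, h⟩
  · intro x hx y hy hxy
    exact hy.2 (hcl₁ x hx y hxy hy.1).2
  · obtain ⟨W⟩ := hconn.preconnected a v
    refine exists_nbr (fun h => h.1 rfl) hcl₁ W rfl ⟨ha, .nil, ?_⟩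
    intro z hz
    simp at hz
    exact hz ▸ ha
  · obtain ⟨W⟩ := hconn.preconnected b v
    exact exists_nbr (fun h => h.1 rfl) hcl₂ W rfl ⟨hb, hab⟩

theorem Sep.same_side {G : SimpleGraph V} {v : V} {C₁ C₂ : Set V} (h : Sep G v C₁ C₂) :
    ∀ {a b : V} (W : G.Walk a b), (∀ z ∈ W.support, z ≠ v) → a ∈ C₂ → b ∈ C₂ := by
  intro a b W
  induction W with
  | nil => intro _ ha; exact ha
  | @cons a a' b hadj W ih =>
    intro hW ha
    apply ih
    · intro z hz
      exact hW z (by simp [hz])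
    · have ha' : a' ≠ v := hW a' (by simp)
      rcases h.cover a' ha' with h1 | h1
      · exact absurd hadj.symm (h.noadj a' h1 a ha)
      · exact h1

/-- From a vertex outside `N`, a walk to `N` avoiding `u` gives a walk outside `N` that ends at a
neighbour of a vertex of `N` different from `u`. -/
theorem ear_exists {G : SimpleGraph V} {N : Set V} {u : V} :
    ∀ {a b : V} (W : G.Walk a b), (∀ z ∈ W.support, z ≠ u) → a ∉ N → b ∈ N →
      ∃ (c e : V) (W' : G.Walk a c), (∀ z ∈ W'.support, z ∉ N) ∧ G.Adj c e ∧ e ∈ N ∧ e ≠ u := by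
  intro a b W
  induction W with
  | nil => intro _ ha hb; exact absurd hb ha
  | @cons a a' b hadj W ih =>
    intro hW ha hb
    by_cases ha' : a' ∈ N
    · refine ⟨a, a', .nil, ?_, hadj, ha', hW a' (by simp)⟩
      intro z hz
      simp at hz
      exact hz ▸ ha
    · obtain ⟨c, e, W', h1, h2, h3, h4⟩ := ih (fun z hz => hW z (by simp [hz])) ha' hb
      refine ⟨c, e, .cons hadj W', ?_, h2, h3, h4⟩
      intro z hz
      rw [SimpleGraph.Walk.support_cons, List.mem_cons] at hz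
      rcases hz with rfl | hz
      · exact ha
      · exact h1 z hz

/-- A vertex of a block with a neighbour outside the block is a cutvertex. -/
theorem block_boundary {G : SimpleGraph V} {N : Set V} (hN : IsBlock G N) {u e₀ p : V}
    (hu : u ∈ N) (he₀ : e₀ ∈ N) (hue₀ : e₀ ≠ u) (hp : p ∉ N) (hup : G.Adj u p) :
    IsCutVertex G u := by
  classical
  intro hpre
  rw [preconnected_iff_conn] at hpre
  have hpu : p ≠ u := fun h => hp (h ▸ hu)
  obtain ⟨W, hW⟩ := hpre p hpu e₀ hue₀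
  obtain ⟨c, e, W₁, hW₁, hce, he, heu⟩ := ear_exists W (fun z hz => hW z hz) hp he₀
  -- make it a path
  obtain ⟨W', hpath, hW'⟩ : ∃ W' : G.Walk p c, W'.IsPath ∧ ∀ z ∈ W'.support, z ∉ N :=
    ⟨W₁.bypass, W₁.bypass_isPath, fun z hz => hW₁ z (W₁.support_bypass_subset_support hz)⟩
  obtain ⟨⟨hNconn, hNcut⟩, hmax⟩ := hN
  have hNc : ∀ x ∈ N, ∀ y ∈ N, Conn G N x y := preconnected_iff_conn.mp hNconn.preconnected
  set M : Set V := N ∪ {z | z ∈ W'.support} with hM
  have hNM : N ⊆ M := Set.subset_union_left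
  have hgood : (G.induce M).Connected ∧ ∀ v ∈ M, (G.induce (M \ {v})).Preconnected := by
    constructor
    · exact SimpleGraph.connected_induce_union hNconn.preconnected
        W'.connected_induce_support.preconnected hu W'.start_mem_support hup
    · intro q hq
      rw [preconnected_iff_conn]
      -- everything is joined to a common vertex `b`
      have key : ∀ b : V, (∀ z ∈ M \ {q}, Conn G (M \ {q}) z b) →
          ∀ x ∈ M \ {q}, ∀ y ∈ M \ {q}, Conn G (M \ {q}) x y :=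
        fun b hb x hx y hy => (hb x hx).trans (hb y hy).symm
      by_cases hqN : q ∈ N
      · have hqW : ∀ z ∈ W'.support, z ≠ q := fun z hz h => hW' z hz (h ▸ hqN)
        have hNq : ∀ x ∈ N \ {q}, ∀ y ∈ N \ {q}, Conn G (M \ {q}) x y := by
          intro x hx y hy
          exact (preconnected_iff_conn.mp (hNcut q hqN) x hx y hy).mono
            (Set.sdiff_subset_sdiff_left hNM)
        have hWall : ∀ z ∈ W'.support, z ∈ M \ {q} := fun z hz => ⟨Or.inr hz, hqW z hz⟩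
        by_cases hqu : q = u
        · subst hqu
          apply key e
          rintro z ⟨hz | hz, hzq⟩
          · exact hNq z ⟨hz, hzq⟩ e ⟨he, heu⟩
          · have hz' : z ∈ W'.support := hz
            refine Conn.trans (y := c) ⟨W'.dropUntil z hz', fun t ht =>
              hWall t (W'.support_dropUntil_subset_support hz' ht)⟩ ?_
            exact Conn.of_adj (hWall c W'.end_mem_support) ⟨hNM he, heu⟩ hce
        · apply key u
          rintro z ⟨hz | hz, hzq⟩
          · exact hNq z ⟨hz, hzq⟩ u ⟨hu, Ne.symm hqu⟩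
          · have hz' : z ∈ W'.support := hz
            refine Conn.trans (y := p) (Conn.symm ⟨W'.takeUntil z hz', fun t ht =>
              hWall t (W'.support_takeUntil_subset_support hz' ht)⟩) ?_
            exact Conn.of_adj (hWall p W'.start_mem_support) ⟨hNM hu, Ne.symm hqu⟩ hup.symm
      · have hNin : N ⊆ M \ {q} := fun z hz => ⟨hNM hz, fun h => hqN (h ▸ hz)⟩
        apply key u
        rintro z ⟨hz | hz, hzq⟩
        · exact (hNc z hz u hu).mono hNin
        · have hz' : z ∈ W'.support := hz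
          have hsplit : q ∉ (W'.takeUntil z hz').support ∨ q ∉ (W'.dropUntil z hz').support := by
            by_contra hcon
            push Not at hcon
            obtain ⟨h1, h2⟩ := hcon
            have h3 := hpath.support_nodup
            rw [← SimpleGraph.Walk.take_spec W' hz', SimpleGraph.Walk.support_append] at h3
            have h4 := List.disjoint_of_nodup_append h3
            rw [← SimpleGraph.Walk.cons_tail_support, List.mem_cons] at h2
            rcases h2 with h2 | h2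
            · exact hzq h2.symm
            · exact h4 h1 h2
          rcases hsplit with h1 | h1
          · refine Conn.trans (y := p) (Conn.symm ⟨W'.takeUntil z hz', fun t ht =>
              ⟨Or.inr (W'.support_takeUntil_subset_support hz' ht), fun h => h1 (h ▸ ht)⟩⟩) ?_
            refine Conn.of_adj ⟨Or.inr W'.start_mem_support, fun h => h1 ?_⟩ (hNin hu) hup.symm
            exact h ▸ (W'.takeUntil z hz').start_mem_support
          · refine Conn.trans (y := c) ⟨W'.dropUntil z hz', fun t ht =>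
              ⟨Or.inr (W'.support_dropUntil_subset_support hz' ht), fun h => h1 (h ▸ ht)⟩⟩ ?_
            refine Conn.trans (y := e) ?_ ((hNc e he u hu).mono hNin)
            refine Conn.of_adj ⟨Or.inr W'.end_mem_support, fun h => h1 ?_⟩ (hNin he) hce
            exact h ▸ (W'.dropUntil z hz').end_mem_support
  exact hp (hmax hgood hNM (Or.inr W'.start_mem_support))

/-! ### The main theorem -/

theorem cut_data [Finite V] {G : SimpleGraph V} (hconn : G.Connected) (hc : IsEdgeCritical G)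
    {v : V} (hv : IsCutVertex G v) : ∃ C₁ C₂ : Set V, Sep G v C₁ C₂ ∧ Light G v C₁ := by
  obtain ⟨C₁, C₂, h⟩ := exists_sep hconn hv
  rcases h.light_or hc with h1 | h1
  · exact ⟨C₁, C₂, h, h1⟩
  · exact ⟨C₂, C₁, h.symm, h1⟩

theorem exists_boundary {G : SimpleGraph V} {N S : Set V} :
    ∀ {a b : V} (W : G.Walk a b), (∀ z ∈ W.support, z ∈ N) → a ∈ S → b ∉ S →
      ∃ t ∈ S, ∃ w ∈ N, w ∉ S ∧ G.Adj t w := by
  intro a b W
  induction W with
  | nil => intro _ ha hb; exact absurd ha hb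
  | @cons a a' b hadj W ih =>
    intro hW ha hb
    by_cases h : a' ∈ S
    · exact ih (fun z hz => hW z (by simp [hz])) h hb
    · exact ⟨a, ha, a', hW a' (by simp), h, hadj⟩

/-- Sanity check: a connected edge-critical graph with a cutvertex has a block containing its
nucleus, so the theorem below is about an existing block. -/
theorem exists_nuclear_block [Finite V] (G : SimpleGraph V) (hconn : G.Connected)
    (hcrit : IsEdgeCritical G) (hcut : ∃ v : V, IsCutVertex G v) :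
    (nucleus G).Nonempty ∧ ∃ N : Set V, IsBlock G N ∧ nucleus G ⊆ N := by
  obtain ⟨v, hv⟩ := hcut
  obtain ⟨C₁, C₂, h, h1⟩ := cut_data hconn hcrit hv
  have hvn : v ∈ nucleus G := (mem_nucleus_iff hcrit v).mpr (h.NC_self h1)
  have hclique : ∀ A : Set V, A ⊆ nucleus G → (G.induce A).Preconnected := by
    intro A hA
    rw [preconnected_iff_conn]
    intro x hx y hy
    by_cases hxy : x = y
    · subst hxy
      refine ⟨.nil, fun z hz => ?_⟩
      simp at hz
      exact hz ▸ hx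
    · exact Conn.of_adj hx hy (NC_adj hcrit ((mem_nucleus_iff hcrit x).mp (hA hx))
        ((mem_nucleus_iff hcrit y).mp (hA hy)) hxy)
  refine ⟨⟨v, hvn⟩, ?_⟩
  have hP : (G.induce (nucleus G)).Connected ∧
      ∀ u ∈ nucleus G, (G.induce (nucleus G \ {u})).Preconnected := by
    refine ⟨?_, fun u _ => hclique _ Set.sdiff_subset⟩
    have : Nonempty (nucleus G) := ⟨⟨v, hvn⟩⟩
    exact ⟨hclique _ subset_rfl⟩
  obtain ⟨N, hN, hmax⟩ := Set.Finite.exists_le_maximal
    (s := {C : Set V | (G.induce C).Connected ∧ ∀ v ∈ C, (G.induce (C \ {v})).Preconnected})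
    (Set.toFinite _) hP
  exact ⟨N, hmax, hN⟩

/-- In a connected edge-critical graph with a cutvertex, a block containing the nucleus which is
itself an edge-critical graph is complete. -/
theorem result [Finite V] (G : SimpleGraph V) (hconn : G.Connected) (hcrit : IsEdgeCritical G)
    (hcut : ∃ v : V, IsCutVertex G v) (N : Set V) (hN : IsBlock G N) (hnuc : nucleus G ⊆ N)
    (hNcrit : IsEdgeCritical (G.induce N)) : G.induce N = ⊤ := by
  have hNC : ∀ y : V, NC G y → y ∈ N := fun y hy => hnuc ((mem_nucleus_iff hcrit y).mpr hy)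
  have hNgood := hN.prop
  -- data at a cutvertex
  have hdata : ∀ v : V, IsCutVertex G v → ∃ C₁ C₂ : Set V, Sep G v C₁ C₂ ∧ Light G v C₁ ∧
      ∀ z ∈ N, z ≠ v → z ∈ C₂ := by
    intro v hv
    obtain ⟨C₁, C₂, h, h1⟩ := cut_data hconn hcrit hv
    refine ⟨C₁, C₂, h, h1, ?_⟩
    intro z hz hzv
    obtain ⟨y, hy, hvy⟩ := h.nbr₂
    have hvN : v ∈ N := hNC v (h.NC_self h1)
    have hyN : y ∈ N := hNC y (h.NC_nbr hcrit h1 hy hvy)
    have hyv : y ≠ v := fun h' => h.notMem₂ (h' ▸ hy)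
    obtain ⟨W, hW⟩ := preconnected_iff_conn.mp (hNgood.2 v hvN) y ⟨hyN, hyv⟩ z ⟨hz, hzv⟩
    exact h.same_side W (fun t ht => (hW t ht).2) hy
  have hSNC : ∀ v : V, IsCutVertex G v → NC G v := by
    intro v hv
    obtain ⟨C₁, C₂, h, h1, _⟩ := hdata v hv
    exact h.NC_self h1
  have hSN : ∀ v : V, IsCutVertex G v → v ∈ N := fun v hv => hNC v (hSNC v hv)
  have hnbr : ∀ v : V, IsCutVertex G v → ∀ y ∈ N, G.Adj v y → NC G y := by
    intro v hv y hy hvy
    obtain ⟨C₁, C₂, h, h1, h2⟩ := hdata v hv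
    exact h.NC_nbr hcrit h1 (h2 y hy hvy.ne') hvy
  obtain ⟨v₀, hv₀⟩ := hcut
  have hv₀N := hSN v₀ hv₀
  obtain ⟨x₀, hx₀, y₀, hy₀, hy₀v₀⟩ : ∃ x₀, x₀ ∉ N ∧ ∃ y₀ ∈ N, y₀ ≠ v₀ := by
    obtain ⟨C₁, C₂, h, h1, h2⟩ := hdata v₀ hv₀
    obtain ⟨x, hx, hvx⟩ := h.nbr₁
    obtain ⟨y, hy, hvy⟩ := h.nbr₂
    refine ⟨x, fun hxN => h.disj x hx (h2 x hxN hvx.ne'), y,
      hNC y (h.NC_nbr hcrit h1 hy hvy), hvy.ne'⟩
  have hbound : ∀ u ∈ N, ∀ p : V, p ∉ N → G.Adj u p → IsCutVertex G u := by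
    intro u hu p hp hup
    by_cases h : u = v₀
    · exact h ▸ hv₀
    · exact block_boundary hN hu hv₀N (Ne.symm h) hp hup
  -- reduce to adjacency
  suffices hadj : ∀ a ∈ N, ∀ b ∈ N, a ≠ b → G.Adj a b by
    ext ⟨a, ha⟩ ⟨b, hb⟩
    constructor
    · intro h
      exact h.ne
    · intro h
      exact hadj a ha b hb (fun h' => h (Subtype.ext h'))
  intro a ha b hb hab
  by_contra hna
  obtain ⟨z₀, hz₀N, hz₀⟩ : ∃ z ∈ N, ¬ NC G z := by
    by_contra hcon
    push Not at hcon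
    exact hna (NC_adj hcrit (hcon a ha) (hcon b hb) hab)
  have hvz : v₀ ≠ z₀ := fun h => hz₀ (h ▸ hSNC v₀ hv₀)
  have hvz' : ¬ G.Adj v₀ z₀ := fun h => hz₀ (hnbr v₀ hv₀ z₀ hz₀N h)
  have hz₀S : ¬ IsCutVertex G z₀ := fun h => hz₀ (hSNC z₀ h)
  -- a non-critical vertex `w` of the block that is not a cutvertex
  obtain ⟨t, ht, w, hwN, hwS, htw⟩ : ∃ t ∈ {v | IsCutVertex G v}, ∃ w ∈ N,
      w ∉ {v | IsCutVertex G v} ∧ G.Adj t w := by
    obtain ⟨W, hW⟩ := preconnected_iff_conn.mp hNgood.1.preconnected v₀ hv₀N z₀ hz₀N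
    exact exists_boundary W hW hv₀ hz₀S
  have hwNC : NC G w := hnbr t ht w hwN htw
  have hxw : x₀ ≠ w := fun h => hx₀ (h ▸ hwN)
  have hxw' : ¬ G.Adj x₀ w := fun h => hwS (hbound w hwN x₀ hx₀ h.symm)
  obtain ⟨X, hXlt, hX⟩ := crit_pair hcrit hxw hxw'
  have hwX : w ∈ X ∧ DomExc G X x₀ := by
    rcases hX with h | h
    · have := hwNC X h.2.1 h.2.2
      omega
    · exact ⟨h.1, h.2.2⟩
  -- dominating sets with at most `γ(G)` vertices containing `w`
  have hfam : (insert x₀ X) ∈ {D : Set V | IsDominating G D ∧ D.ncard ≤ domNum G ∧ w ∈ D} := by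
    refine ⟨?_, ?_, Or.inr hwX.1⟩
    · intro v hv
      simp only [Set.mem_insert_iff, not_or] at hv
      obtain ⟨u, hu, hadj⟩ := hwX.2 v hv.1 hv.2
      exact ⟨u, Or.inr hu, hadj⟩
    · have := Set.ncard_insert_le x₀ X
      omega
  obtain ⟨D, ⟨hD, hDk, hwD⟩, hDmax⟩ := Set.exists_max_image
    {D : Set V | IsDominating G D ∧ D.ncard ≤ domNum G ∧ w ∈ D} (fun D => (D ∩ N).ncard)
    (Set.toFinite _) ⟨_, hfam⟩
  have hSD : ∀ v : V, IsCutVertex G v → v ∈ D := by
    intro v hv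
    by_contra hvD
    obtain ⟨C₁, C₂, h, h1, h2⟩ := hdata v hv
    obtain ⟨D', hD', hcard, hvD', hsub⟩ := h.exchange h1 hD hvD
    have hNsub : D ∩ N ⊆ D' := by
      intro z hz
      apply hsub
      refine ⟨hz.1, fun hzC => h.disj z hzC (h2 z hz.2 (fun h' => hvD (h' ▸ hz.1)))⟩
    have h3 := hDmax D' ⟨hD', hcard.trans hDk, hNsub ⟨hwD, hwN⟩⟩
    have h4 : (insert v (D ∩ N)).ncard ≤ (D' ∩ N).ncard := by
      apply Set.ncard_le_ncard _ (Set.toFinite _)
      rintro z (rfl | hz)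
      · exact ⟨hvD', hSN z hv⟩
      · exact ⟨hNsub hz, hz.2⟩
    have h5 := Set.ncard_insert_of_notMem (fun h' : v ∈ D ∩ N => hvD h'.1) (Set.toFinite (D ∩ N))
    omega
  -- the part `M` of `D` inside the block and away from the cutvertices
  set M : Set V := {z | z ∈ D ∧ z ∈ N ∧ ¬ IsCutVertex G z} with hM
  have hMdom : IsDominating (G.induce N) (Subtype.val ⁻¹' M) := by
    rintro ⟨u, hu⟩ huM
    have huM' : u ∉ M := huM
    by_cases huS : IsCutVertex G u
    · have huw : u ≠ w := fun h => hwS (h ▸ huS)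
      exact ⟨⟨w, hwN⟩, ⟨hwD, hwN, hwS⟩, NC_adj hcrit hwNC (hSNC u huS) (Ne.symm huw)⟩
    · have huD : u ∉ D := fun h => huM' ⟨h, hu, huS⟩
      obtain ⟨u', hu', hadj⟩ := hD u huD
      have hu'N : u' ∈ N := by
        by_contra h
        exact huS (hbound u hu u' h hadj.symm)
      by_cases hu'S : IsCutVertex G u'
      · have huNC : NC G u := hnbr u' hu'S u hu hadj
        have huw : u ≠ w := fun h => huD (h ▸ hwD)
        exact ⟨⟨w, hwN⟩, ⟨hwD, hwN, hwS⟩, NC_adj hcrit hwNC huNC (Ne.symm huw)⟩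
      · exact ⟨⟨u', hu'N⟩, ⟨hu', hu'N, hu'S⟩, hadj⟩
  have hm : domNum (G.induce N) ≤ M.ncard := by
    refine (domNum_le hMdom).trans ?_
    rw [Set.ncard_preimage_of_injective_subset_range Subtype.val_injective]
    intro z hz
    exact ⟨⟨z, hz.2.1⟩, rfl⟩
  have hMD : M ⊆ D := fun z hz => hz.1
  have hcardR : (D \ M).ncard + M.ncard = D.ncard :=
    Set.ncard_sdiff_add_ncard_of_subset hMD (Set.toFinite _)
  have hv₀R : v₀ ∈ D \ M := ⟨hSD v₀ hv₀, fun h => h.2.2 hv₀⟩
  -- `R = D \ M` dominates everything outside the block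
  have hRout : ∀ u : V, u ∉ N → u ∉ D \ M → ∃ u' ∈ D \ M, G.Adj u' u := by
    intro u hu huR
    have huD : u ∉ D := fun h => huR ⟨h, fun h' => hu h'.2.1⟩
    obtain ⟨u', hu', hadj⟩ := hD u huD
    refine ⟨u', ⟨hu', fun h' => h'.2.2 (hbound u' h'.2.1 u hu hadj)⟩, hadj⟩
  -- use that the block is edge-critical
  obtain ⟨Y, hYlt, hY⟩ := crit_pair (x := (⟨v₀, hv₀N⟩ : N)) (y := ⟨z₀, hz₀N⟩) hNcrit
    (fun h => hvz (congrArg Subtype.val h)) hvz'
  have hYcard : (Subtype.val '' Y).ncard = Y.ncard :=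
    Set.ncard_image_of_injective _ Subtype.val_injective
  rcases hY with ⟨hv₀Y, hz₀Y, hYdom⟩ | ⟨hz₀Y, hv₀Y, hYdom⟩
  · have hW : IsDominating G (insert z₀ ((D \ M) ∪ Subtype.val '' Y)) := by
      intro u hu
      simp only [Set.mem_insert_iff, Set.mem_union, not_or] at hu
      by_cases huN : u ∈ N
      · obtain ⟨⟨y, hyN⟩, hy, hadj⟩ := hYdom ⟨u, huN⟩
          (fun h => hu.1 (congrArg Subtype.val h)) (fun h => hu.2.2 ⟨_, h, rfl⟩)
        exact ⟨y, Or.inr (Or.inr ⟨_, hy, rfl⟩), hadj⟩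
      · obtain ⟨u', hu', hadj⟩ := hRout u huN hu.2.1
        exact ⟨u', Or.inr (Or.inl hu'), hadj⟩
    have e1 := domNum_le hW
    have e2 := Set.ncard_insert_le z₀ ((D \ M) ∪ Subtype.val '' Y)
    have e3 := Set.ncard_union_add_ncard_inter (D \ M) (Subtype.val '' Y)
    have e4 : 0 < ((D \ M) ∩ Subtype.val '' Y).ncard := by
      rw [Set.ncard_pos (Set.toFinite _)]
      exact ⟨v₀, hv₀R, ⟨_, hv₀Y, rfl⟩⟩
    omega
  · have hW : IsDominating G ((D \ M) ∪ Subtype.val '' Y) := by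
      intro u hu
      simp only [Set.mem_union, not_or] at hu
      by_cases huN : u ∈ N
      · have huv : u ≠ v₀ := fun h => hu.1 (h ▸ hv₀R)
        obtain ⟨⟨y, hyN⟩, hy, hadj⟩ := hYdom ⟨u, huN⟩
          (fun h => huv (congrArg Subtype.val h)) (fun h => hu.2 ⟨_, h, rfl⟩)
        exact ⟨y, Or.inr ⟨_, hy, rfl⟩, hadj⟩
      · obtain ⟨u', hu', hadj⟩ := hRout u huN hu.1
        exact ⟨u', Or.inl hu', hadj⟩
    have e1 := domNum_le hW
    have e3 := Set.ncard_union_le (D \ M) (Subtype.val '' Y)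
    omega

end Pool.Agent.Results.MP_ba45ff_co.NuclearBlock
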